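import Pool.Agent.KS6_3.ZL.H639R3.Cyc

set_option autoImplicit false

/-!
Euler products as formal power series, splitting fields, and the abstract lower bound for the degree
of the splitting fields of the polynomials given by Euler products.
-/

namespace Pool.Agent.H639R3

/-- The Euler product `∏_x (1 - c x * s ^ d x)⁻¹` as a formal power series in `s`: its coefficient of
`s ^ m` is the one of the finite product over all `x` with `d x ≤ m`. -/
noncomputable def eulerProduct {ι R : Type*} [Field R] (d : ι → ℕ) (c : ι → R) : PowerSeries R :=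
  PowerSeries.mk fun m => PowerSeries.coeff m
    (∏ᶠ x ∈ {x : ι | d x ≤ m}, (1 - PowerSeries.C (c x) * PowerSeries.X ^ d x)⁻¹)

/-- The splitting field over `k`, inside the extension field `Ω`, of a polynomial `f` with constant
term `1` which is given as a power series: the smallest intermediate field which contains all
`α` occurring in a factorization `f = ∏ (1 - α * s)` into finitely many linear factors. -/
noncomputable def splittingField (k : Type*) {Ω : Type*} [Field k] [Field Ω] [Algebra k Ω]
    (f : PowerSeries Ω) : IntermediateField k Ω :=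
  sInf {F : IntermediateField k Ω | ∃ A : Multiset Ω, (∀ α ∈ A, α ∈ F) ∧
    f = (A.map fun α => 1 - PowerSeries.C α * PowerSeries.X).prod}

open PowerSeries

theorem inv_eq {R : Type*} [Field R] (c : R) (d : ℕ) (hd : 0 < d) :
    (1 - C c * X ^ d : PowerSeries R)⁻¹ = mk fun j => if d ∣ j then c ^ (j / d) else 0 := by
  have hne : constantCoeff (1 - C c * X ^ d : PowerSeries R) ≠ 0 := by
    simp [hd.ne']
  symm
  rw [PowerSeries.eq_inv_iff_mul_eq_one hne]
  ext j
  rw [mul_sub, mul_one, map_sub, coeff_mk, coeff_one]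
  have h1 : (mk fun j => if d ∣ j then c ^ (j / d) else 0 : PowerSeries R) * (C c * X ^ d) =
      C c * ((mk fun j => if d ∣ j then c ^ (j / d) else 0) * X ^ d) := by ring
  rw [h1, coeff_C_mul, coeff_mul_X_pow']
  by_cases hj0 : j = 0
  · subst hj0
    simp [hd.ne']
  · rw [if_neg hj0]
    by_cases hdj : d ∣ j
    · obtain ⟨k, rfl⟩ := hdj
      have hk : k ≠ 0 := by rintro rfl; simp at hj0
      obtain ⟨l, rfl⟩ := Nat.exists_eq_succ_of_ne_zero hk
      have hle : d ≤ d * (l + 1) := Nat.le_mul_of_pos_right d (Nat.succ_pos l)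
      have hsub : d * (l + 1) - d = d * l := by rw [Nat.mul_succ]; omega
      rw [if_pos (dvd_mul_right _ _), if_pos hle, coeff_mk, hsub, if_pos (dvd_mul_right _ _),
        Nat.mul_div_cancel_left _ hd, Nat.mul_div_cancel_left _ hd, pow_succ]
      ring
    · rw [if_neg hdj]
      by_cases hle : d ≤ j
      · rw [if_pos hle, coeff_mk, if_neg]
        · simp
        · intro h
          apply hdj
          have := Nat.dvd_add h (dvd_refl d)
          rwa [Nat.sub_add_cancel hle] at this
      · rw [if_neg hle]; simp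

/-- the power series with all coefficients in `F` -/
def coeffIn {k Ω : Type*} [Field k] [Field Ω] [Algebra k Ω] (F : IntermediateField k Ω)
    (f : PowerSeries Ω) : Prop := ∀ m, coeff m f ∈ F

section
variable {k Ω : Type*} [Field k] [Field Ω] [Algebra k Ω] (F : IntermediateField k Ω)

theorem coeffIn_one : coeffIn F (1 : PowerSeries Ω) := by
  intro m
  rw [coeff_one]
  split_ifs
  · exact F.one_mem
  · exact F.zero_mem

theorem coeffIn_mul {f g : PowerSeries Ω} (hf : coeffIn F f) (hg : coeffIn F g) :
    coeffIn F (f * g) := by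
  intro m
  rw [coeff_mul]
  exact F.sum_mem fun x _ => F.mul_mem (hf _) (hg _)

theorem coeffIn_multiset_prod (A : Multiset (PowerSeries Ω)) (h : ∀ f ∈ A, coeffIn F f) :
    coeffIn F A.prod := by
  induction A using Multiset.induction_on with
  | empty => simpa using coeffIn_one F
  | cons f A ih =>
    rw [Multiset.prod_cons]
    exact coeffIn_mul F (h f (Multiset.mem_cons_self _ _))
      (ih fun g hg => h g (Multiset.mem_cons_of_mem hg))

theorem coeffIn_finset_prod {ι : Type*} (s : Finset ι) (f : ι → PowerSeries Ω)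
    (h : ∀ x ∈ s, coeffIn F (f x)) : coeffIn F (∏ x ∈ s, f x) := by
  rw [Finset.prod]
  apply coeffIn_multiset_prod
  intro g hg
  rw [Multiset.mem_map] at hg
  obtain ⟨x, hx, rfl⟩ := hg
  exact h x hx

theorem coeffIn_linear {α : Ω} (hα : α ∈ F) : coeffIn F (1 - C α * X : PowerSeries Ω) := by
  intro m
  rw [map_sub, coeff_one, coeff_C_mul, coeff_X]
  refine F.sub_mem ?_ (F.mul_mem hα ?_)
  · split_ifs
    · exact F.one_mem
    · exact F.zero_mem
  · split_ifs
    · exact F.one_mem
    · exact F.zero_mem

theorem coeff_mem_splittingField (f : PowerSeries Ω) (m : ℕ) :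
    coeff m f ∈ splittingField k f := by
  unfold splittingField
  rw [IntermediateField.mem_sInf]
  rintro F ⟨A, hA, hf⟩
  rw [hf]
  refine coeffIn_multiset_prod F _ ?_ m
  intro g hg
  rw [Multiset.mem_map] at hg
  obtain ⟨α, hα, rfl⟩ := hg
  exact coeffIn_linear F (hA α hα)

theorem coeff_linear_prod (A : Multiset Ω) :
    ∀ m, Multiset.card A < m → coeff m (A.map fun α => 1 - C α * X).prod = 0 := by
  induction A using Multiset.induction_on with
  | empty =>
    intro m hm
    rw [Multiset.card_zero] at hm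
    simp [coeff_one, hm.ne']
  | cons α A ih =>
    intro m hm
    rw [Multiset.card_cons] at hm
    rw [Multiset.map_cons, Multiset.prod_cons, sub_mul, one_mul, map_sub, ih m (by omega)]
    obtain ⟨l, rfl⟩ : ∃ l, m = l + 1 := ⟨m - 1, by omega⟩
    have h1 : C α * X * (A.map fun α => 1 - C α * X).prod =
      C α * ((A.map fun α => 1 - C α * X).prod * X) := by ring
    rw [h1, coeff_C_mul, coeff_succ_mul_X, ih l (by omega)]
    simp

theorem splittingField_eq_top (f : PowerSeries Ω) (h : ∀ N, ∃ m, N < m ∧ coeff m f ≠ 0) :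
    splittingField k f = ⊤ := by
  unfold splittingField
  have : {F : IntermediateField k Ω | ∃ A : Multiset Ω, (∀ α ∈ A, α ∈ F) ∧
    f = (A.map fun α => 1 - PowerSeries.C α * PowerSeries.X).prod} = ∅ := by
    rw [Set.eq_empty_iff_forall_notMem]
    rintro F ⟨A, -, hA⟩
    obtain ⟨m, hm, hne⟩ := h (Multiset.card A)
    apply hne
    rw [hA]
    exact coeff_linear_prod A m hm
  rw [this, sInf_empty]

end

theorem coeff_eulerProduct {ι R : Type*} [Field R] (d : ι → ℕ) (hd : ∀ x, 0 < d x)
    (hfin : ∀ m, {x | d x ≤ m}.Finite) (c : ι → R) (m : ℕ) :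
    coeff m (eulerProduct d c) = coeff m (∏ x ∈ (hfin m).toFinset,
      (mk fun j => if d x ∣ j then c x ^ (j / d x) else 0 : PowerSeries R)) := by
  unfold eulerProduct
  rw [coeff_mk]
  congr 1
  rw [finprod_mem_eq_finite_toFinset_prod _ (hfin m)]
  exact Finset.prod_congr rfl fun x _ => inv_eq _ _ (hd x)

/-- all local factors trivial: the Euler product is not a polynomial -/
theorem euler_trivial {ι R : Type*} [Field R] [CharZero R] (d : ι → ℕ) (hd : ∀ x, 0 < d x)
    (hfin : ∀ m, {x | d x ≤ m}.Finite) [Nonempty ι] (c : ι → R) (hc : ∀ x, c x = 1) :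
    ∀ N, ∃ m, N < m ∧ coeff m (eulerProduct d c) ≠ 0 := by
  classical
  intro N
  obtain ⟨x0⟩ := ‹Nonempty ι›
  set m := d x0 * (N + 1) with hm
  have hdm : d x0 ≤ m := Nat.le_mul_of_pos_right _ (Nat.succ_pos N)
  refine ⟨m, ?_, ?_⟩
  · calc N < N + 1 := Nat.lt_succ_self N
      _ = 1 * (N + 1) := (one_mul _).symm
      _ ≤ d x0 * (N + 1) := Nat.mul_le_mul_right _ (hd x0)
  rw [coeff_eulerProduct d hd hfin]
  set s := (hfin m).toFinset with hs
  have hx0 : x0 ∈ s := by rw [hs, Set.Finite.mem_toFinset]; exact hdm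
  set G : ι → PowerSeries ℕ := fun x => mk fun j => if d x ∣ j then 1 else 0 with hG
  have hmap : (∏ x ∈ s, (mk fun j => if d x ∣ j then c x ^ (j / d x) else 0 : PowerSeries R)) =
      PowerSeries.map (Nat.castRingHom R) (∏ x ∈ s, G x) := by
    rw [map_prod]
    refine Finset.prod_congr rfl fun x _ => ?_
    ext j
    rw [coeff_mk, coeff_map, hG, coeff_mk, hc, one_pow]
    split_ifs <;> simp
  rw [hmap, coeff_map]
  have hcc : ∀ t : Finset ι, coeff 0 (∏ x ∈ t, G x) = 1 := by
    intro t
    rw [coeff_zero_eq_constantCoeff_apply, map_prod]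
    apply Finset.prod_eq_one
    intro x _
    rw [← coeff_zero_eq_constantCoeff_apply, hG, coeff_mk]
    simp
  have hpos : 1 ≤ coeff m (∏ x ∈ s, G x) := by
    rw [← Finset.mul_prod_erase s G hx0, coeff_mul]
    have h1 : coeff m (G x0) * coeff 0 (∏ x ∈ s.erase x0, G x) = 1 := by
      rw [hcc, mul_one, hG, coeff_mk, if_pos (dvd_mul_right _ _)]
    rw [← h1]
    exact Finset.single_le_sum (f := fun q : ℕ × ℕ => coeff q.1 (G x0) *
      coeff q.2 (∏ x ∈ s.erase x0, G x)) (fun _ _ => Nat.zero_le _)
      (a := (m, 0)) (Finset.HasAntidiagonal.mem_antidiagonal.mpr (add_zero m))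
  intro h
  have h0 : coeff m (∏ x ∈ s, G x) = 0 := by
    have : ((coeff m (∏ x ∈ s, G x) : ℕ) : R) = 0 := h
    exact_mod_cast this
  omega

/-- coefficient of `s ^ m` of a product of factors `1 + c x s ^ m + ⋯` -/
theorem coeff_prod_top {ι R : Type*} [Field R] [DecidableEq ι] (m : ℕ) (hm : 0 < m) (t : Finset ι)
    (f : ι → PowerSeries R) (h0 : ∀ x ∈ t, ∀ j, j < m → coeff j (f x) = if j = 0 then 1 else 0) :
    (∀ j, j < m → coeff j (∏ x ∈ t, f x) = if j = 0 then 1 else 0) ∧
      coeff m (∏ x ∈ t, f x) = ∑ x ∈ t, coeff m (f x) := by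
  induction t using Finset.induction_on with
  | empty =>
    rw [Finset.prod_empty, Finset.sum_empty]
    exact ⟨fun j _ => coeff_one j, by rw [coeff_one, if_neg hm.ne']⟩
  | insert x t hx ih =>
    obtain ⟨ih1, ih2⟩ := ih fun y hy => h0 y (Finset.mem_insert_of_mem hy)
    have hfx := h0 x (Finset.mem_insert_self _ _)
    rw [Finset.prod_insert hx, Finset.sum_insert hx]
    constructor
    · intro j hj
      rw [coeff_mul]
      by_cases hj0 : j = 0
      · subst hj0
        simp [hfx 0 hm, ih1 0 hm]
      · rw [if_neg hj0]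
        apply Finset.sum_eq_zero
        intro q hq
        rw [Finset.HasAntidiagonal.mem_antidiagonal] at hq
        by_cases h1 : q.1 = 0
        · have h2 : q.2 ≠ 0 := by omega
          rw [ih1 q.2 (by omega), if_neg h2, mul_zero]
        · rw [hfx q.1 (by omega), if_neg h1, zero_mul]
    · rw [coeff_mul]
      have h1 : ∀ q ∈ Finset.HasAntidiagonal.antidiagonal m, q ≠ (0, m) → q ≠ (m, 0) →
          coeff q.1 (f x) * coeff q.2 (∏ y ∈ t, f y) = 0 := by
        intro q hq hq1 hq2
        rw [Finset.HasAntidiagonal.mem_antidiagonal] at hq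
        have h2 : q.1 ≠ 0 := by
          intro h; apply hq1; ext <;> simp <;> omega
        have h3 : q.2 ≠ 0 := by
          intro h; apply hq2; ext <;> simp <;> omega
        rw [hfx q.1 (by omega), if_neg h2, zero_mul]
      have hne : ((0, m) : ℕ × ℕ) ≠ (m, 0) := by
        intro h
        have := congrArg Prod.fst h
        simp at this
        omega
      rw [← Finset.sum_subset (s₁ := {(0, m), (m, 0)})]
      · rw [Finset.sum_pair hne]
        rw [hfx 0 hm, ih1 0 hm, ih2]
        simp [add_comm]
      · intro q hq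
        rw [Finset.mem_insert, Finset.mem_singleton] at hq
        rw [Finset.HasAntidiagonal.mem_antidiagonal]
        rcases hq with rfl | rfl <;> simp
      · intro q hq hq2
        rw [Finset.mem_insert, Finset.mem_singleton, not_or] at hq2
        exact h1 q hq hq2.1 hq2.2

variable {p : ℕ} [hp : Fact p.Prime]

/-- The abstract theorem: Euler products with local factors given by values of characters of exact
order `p ^ n` of `ℤ_[p]` at arbitrary elements `a x`. -/
theorem abstract_bound {Ω : Type*} [Field Ω] [Algebra ℚ_[p] Ω] {ι : Type*} [Nonempty ι]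
    (d : ι → ℕ) (hd : ∀ x, 0 < d x) (hfin : ∀ m, {x | d x ≤ m}.Finite) (a : ι → ℤ_[p]) :
    ∃ c : ℕ, 0 < c ∧ ∀ (n : ℕ) (ζ : Ω), IsPrimitiveRoot ζ (p ^ n) →
      ((p ^ n : ℕ) : Cardinal) ≤ (c : Cardinal) * Module.rank ℚ_[p]
        (splittingField ℚ_[p] (eulerProduct d fun x => ζ ^ (PadicInt.toZModPow n (a x)).val)) := by
  classical
  have hchar : CharZero Ω := charZero_of_injective_algebraMap (algebraMap ℚ_[p] Ω).injective
  by_cases hall : ∀ x, a x = 0
  · obtain ⟨c, hc, H⟩ := degree_bound (Ω := Ω) (p := p) ({()} : Finset Unit) (fun _ => 1) ()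
      (Finset.mem_singleton_self _) one_ne_zero
    refine ⟨c, hc, fun n ζ hζ => H n ζ hζ _ ?_⟩
    rw [splittingField_eq_top]
    · exact IntermediateField.mem_top
    · apply euler_trivial d hd hfin
      intro x
      rw [hall x]
      simp
  · push Not at hall
    -- the least degree of an `x` with `a x ≠ 0`
    have hex : ∃ m, ∃ x, d x = m ∧ a x ≠ 0 := by
      obtain ⟨x, hx⟩ := hall
      exact ⟨d x, x, rfl, hx⟩
    set m := Nat.find hex with hm
    obtain ⟨x0, hx0m, hx0⟩ := Nat.find_spec hex
    rw [← hm] at hx0m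
    have hmin : ∀ x, d x < m → a x = 0 := by
      intro x hx
      by_contra h
      exact Nat.find_min hex hx ⟨x, rfl, h⟩
    set J : Finset ι := (hfin m).toFinset.filter fun x => d x = m with hJ
    have hmemJ : ∀ x, x ∈ J ↔ d x = m := by
      intro x
      rw [hJ, Finset.mem_filter, Set.Finite.mem_toFinset, Set.mem_ofPred_eq]
      exact ⟨fun h => h.2, fun h => ⟨h.le, h⟩⟩
    obtain ⟨c, hc, H⟩ := degree_bound (Ω := Ω) (p := p) J a x0 ((hmemJ x0).mpr hx0m) hx0
    refine ⟨c, hc, fun n ζ hζ => H n ζ hζ _ ?_⟩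
    set f := eulerProduct d fun x => ζ ^ (PadicInt.toZModPow n (a x)).val with hf
    set F := splittingField ℚ_[p] f with hF
    have hcoeff : coeff m f ∈ F := coeff_mem_splittingField f m
    rw [hf, coeff_eulerProduct d hd hfin] at hcoeff
    set g : ι → PowerSeries Ω := fun x => mk fun j => if d x ∣ j then
      (ζ ^ (PadicInt.toZModPow n (a x)).val) ^ (j / d x) else 0 with hg
    have hmpos : 0 < m := by rw [← hx0m]; exact hd x0
    -- split the product
    have hsplit : ∏ x ∈ (hfin m).toFinset, g x =
        (∏ x ∈ J, g x) * ∏ x ∈ (hfin m).toFinset.filter fun x => ¬ d x = m, g x := by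
      rw [hJ, Finset.prod_filter_mul_prod_filter_not]
    obtain ⟨hA1, hA2⟩ := coeff_prod_top m hmpos J g (by
      intro x hx j hj
      rw [hg, coeff_mk, (hmemJ x).mp hx]
      by_cases hj0 : j = 0
      · subst hj0; simp
      · rw [if_neg hj0, if_neg]
        intro hdvd
        exact absurd (Nat.le_of_dvd (Nat.pos_of_ne_zero hj0) hdvd) (by omega))
    set B := ∏ x ∈ (hfin m).toFinset.filter fun x => ¬ d x = m, g x with hB
    have hBF : coeffIn F B := by
      apply coeffIn_finset_prod
      intro x hx j
      rw [Finset.mem_filter, Set.Finite.mem_toFinset, Set.mem_ofPred_eq] at hx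
      have hax : a x = 0 := hmin x (lt_of_le_of_ne hx.1 hx.2)
      rw [hg, coeff_mk, hax]
      split_ifs
      · simp
      · exact F.zero_mem
    have hBone : coeff 0 B = 1 := by
      rw [coeff_zero_eq_constantCoeff_apply, hB, map_prod]
      apply Finset.prod_eq_one
      intro x _
      rw [← coeff_zero_eq_constantCoeff_apply, hg, coeff_mk]
      simp
    have hval : coeff m ((∏ x ∈ J, g x) * B) =
        coeff m B + ∑ x ∈ J, coeff m (g x) := by
      rw [coeff_mul]
      have h1 : ∀ q ∈ Finset.HasAntidiagonal.antidiagonal m, q ≠ (0, m) → q ≠ (m, 0) →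
          coeff q.1 (∏ x ∈ J, g x) * coeff q.2 B = 0 := by
        intro q hq hq1 hq2
        rw [Finset.HasAntidiagonal.mem_antidiagonal] at hq
        have h2 : q.1 ≠ 0 := by
          intro h; apply hq1; ext <;> simp <;> omega
        have h3 : q.2 ≠ 0 := by
          intro h; apply hq2; ext <;> simp <;> omega
        rw [hA1 q.1 (by omega), if_neg h2, zero_mul]
      have hne : ((0, m) : ℕ × ℕ) ≠ (m, 0) := by
        intro h
        have := congrArg Prod.fst h
        simp at this
        omega
      rw [← Finset.sum_subset (s₁ := {(0, m), (m, 0)})]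
      · rw [Finset.sum_pair hne, hA1 0 hmpos, hA2, hBone]
        simp
      · intro q hq
        rw [Finset.mem_insert, Finset.mem_singleton] at hq
        rw [Finset.HasAntidiagonal.mem_antidiagonal]
        rcases hq with rfl | rfl <;> simp
      · intro q hq hq2
        rw [Finset.mem_insert, Finset.mem_singleton, not_or] at hq2
        exact h1 q hq hq2.1 hq2.2
    rw [hsplit, hval] at hcoeff
    have h3 : ∑ x ∈ J, coeff m (g x) ∈ F := by
      have := F.sub_mem hcoeff (hBF m)
      rwa [add_sub_cancel_left] at this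
    have h4 : ∑ x ∈ J, coeff m (g x) = ∑ x ∈ J, ζ ^ (PadicInt.toZModPow n (a x)).val := by
      refine Finset.sum_congr rfl fun x hx => ?_
      rw [hg, coeff_mk, (hmemJ x).mp hx, if_pos dvd_rfl, Nat.div_self hmpos, pow_one]
    rwa [h4] at h3

end Pool.Agent.H639R3
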