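import Pool.Agent.KS6_3.ZL.H639R3.Curve
import Pool.Agent.KS6_3.ZL.H639R3.Euler

set_option autoImplicit false

/-!
`ℤ_p`-towers of curves over a finite field, Frobenius elements.
-/

namespace Pool.Agent.H639R3

open PowerSeries in
/-- If `f` is the polynomial `∏ (1 - α s)`, the product over the multiset `A`, then the splitting
field of `f` is the field generated by the elements of `A`. -/
theorem splittingField_eq_adjoin (k : Type*) {Ω : Type*} [Field k] [Field Ω] [Algebra k Ω]
    (A : Multiset Ω) : splittingField k (A.map fun α => 1 - C α * X).prod =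
      IntermediateField.adjoin k {α : Ω | α ∈ A} := by
  classical
  apply le_antisymm
  · apply sInf_le
    exact ⟨A, fun α hα => IntermediateField.subset_adjoin _ _ hα, rfl⟩
  · unfold splittingField
    apply le_sInf
    rintro F ⟨A', hA', he⟩
    rw [IntermediateField.adjoin_le_iff]
    intro α hα
    have hα' : α ∈ A := hα
    by_cases h0 : α = 0
    · rw [h0]; exact F.zero_mem
    -- the identity of polynomials
    have key : (A.map fun α => (1 - Polynomial.C α * Polynomial.X : Polynomial Ω)).prod =
        (A'.map fun α => (1 - Polynomial.C α * Polynomial.X : Polynomial Ω)).prod := by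
      have h1 : ∀ B : Multiset Ω, (((B.map fun α =>
          (1 - Polynomial.C α * Polynomial.X : Polynomial Ω)).prod : Polynomial Ω) :
            PowerSeries Ω) = (B.map fun α => 1 - C α * X).prod := by
        intro B
        induction B using Multiset.induction_on with
        | empty => simp
        | cons b B ih =>
          rw [Multiset.map_cons, Multiset.prod_cons, Multiset.map_cons, Multiset.prod_cons,
            Polynomial.coe_mul, ih]
          simp
      apply Polynomial.coe_injective Ω
      rw [h1, h1]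
      exact he
    have h2 := congrArg (Polynomial.eval α⁻¹) key
    rw [Polynomial.eval_multiset_prod, Polynomial.eval_multiset_prod, Multiset.map_map,
      Multiset.map_map] at h2
    have h3 : (A.map ((Polynomial.eval α⁻¹) ∘ fun α =>
        (1 - Polynomial.C α * Polynomial.X : Polynomial Ω))).prod = 0 := by
      apply Multiset.prod_eq_zero
      rw [Multiset.mem_map]
      exact ⟨α, hα', by simp [h0]⟩
    rw [h3] at h2
    have h4 := Multiset.prod_eq_zero_iff.mp h2.symm
    rw [Multiset.mem_map] at h4
    obtain ⟨β, hβ, hβ0⟩ := h4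
    have h5 : β = α := by
      simp only [Function.comp_apply, Polynomial.eval_sub, Polynomial.eval_one,
        Polynomial.eval_mul, Polynomial.eval_C, Polynomial.eval_X] at hβ0
      have := sub_eq_zero.mp hβ0
      field_simp at this
      exact this.symm
    rw [← h5]
    exact hA' β hβ

section frob

variable {k K : Type} (L : Type) [Field k] [Field K] [Field L] [Algebra k K] [Algebra K L]

/-- The closed point `x` of the curve with function field `K` is unramified in the Galois extension
`L / K`: for every valuation ring `w` of `L` over `x` the inertia group, i.e. the group of the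
automorphisms which map `w` to itself and act trivially on the residue field of `w`,
is trivial. -/
def IsUnramifiedIn (x : ClosedPoint k K) : Prop :=
  ∀ w : ValuationSubring L, w.comap (algebraMap K L) = x.ring →
    ∀ σ : L ≃ₐ[K] L, (∀ a, a ∈ w ↔ σ a ∈ w) → (∀ a ∈ w, w.valuation (σ a - a) < 1) → σ = 1

variable {L}

/-- `σ` is the (arithmetic) Frobenius element at `x` of the abelian extension `L / K`: for every
valuation ring `w` of `L` over `x`, `σ` maps `w` to itself and acts as `a ↦ a ^ N` on the
residue field of `w`, with `N = #k ^ deg x` the number of elements of the residue field of `x`. -/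
def IsFrob (x : ClosedPoint k K) (σ : L ≃ₐ[K] L) : Prop :=
  ∀ w : ValuationSubring L, w.comap (algebraMap K L) = x.ring →
    (∀ a, a ∈ w ↔ σ a ∈ w) ∧ ∀ a ∈ w, w.valuation (σ a - a ^ (Nat.card k) ^ x.deg) < 1

/-- the Frobenius element at a closed point `x` (which is unique if `x` is unramified) -/
noncomputable def frob (x : ClosedPoint k K) : L ≃ₐ[K] L :=
  Classical.epsilon fun σ => IsFrob x σ

end frob

/-- A `ℤ_p`-tower of curves over the finite field `k`, over the curve `X` with function field `K`:
a Galois extension `L / K` with Galois group isomorphic to `ℤ_p` as a topological group, in which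
`k` is algebraically closed (the `n`-th layer `X_n` is the curve whose function field is the fixed
field of `p ^ n ℤ_p`; all layers are geometrically connected), which is unramified outside the
finite nonempty set `S` of closed points of `X`. -/
structure ZpTower (p : ℕ) [Fact p.Prime] (k K L : Type) [Field k] [Field K] [Field L]
    [Algebra k K] [Algebra K L] [Algebra k L] [IsScalarTower k K L] where
  curve : IsCurve k K
  galois : IsGalois K L
  iso : (L ≃ₐ[K] L) ≃ₜ* Multiplicative ℤ_[p]
  constants : ∀ y : L, IsAlgebraic k y → ∃ a : k, algebraMap k L a = y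
  S : Set (ClosedPoint k K)
  finite : S.Finite
  nonempty : S.Nonempty
  unramified : ∀ x, x ∉ S → IsUnramifiedIn L x

/-- The `L`-function `L(χ, s) = ∏ (1 - χ(Frob_x) s ^ deg x)⁻¹`, the product over all closed points
of `X` outside `S`, of a character `χ` of the Galois group of a `ℤ_p`-tower with values in a field
`Ω`, as a formal power series in `s`. -/
noncomputable def ZpTower.lFunction {p : ℕ} [Fact p.Prime] {k K L : Type} [Field k] [Field K]
    [Field L] [Algebra k K] [Algebra K L] [Algebra k L] [IsScalarTower k K L]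
    (T : ZpTower p k K L) {Ω : Type} [Field Ω] (χ : (L ≃ₐ[K] L) →* Ωˣ) : PowerSeries Ω :=
  eulerProduct (fun x : {x : ClosedPoint k K // x ∉ T.S} => x.1.deg)
    (fun x => (χ (frob x.1) : Ω))

/-- A character of exact order `p ^ n` of `ℤ_p` is given by a primitive root of unity. -/
theorem char_eq {p : ℕ} [hp : Fact p.Prime] {Ω : Type*} [Field Ω] {G : Type*} [Group G]
    (e : G ≃* Multiplicative ℤ_[p]) (χ : G →* Ωˣ) (n : ℕ) (hχ : orderOf χ = p ^ n) :
    ∃ ζ : Ω, IsPrimitiveRoot ζ (p ^ n) ∧
      ∀ g : G, (χ g : Ω) = ζ ^ (PadicInt.toZModPow n (e g).toAdd).val := by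
  have hNZ : NeZero (p ^ n) := ⟨(pow_pos hp.out.pos _).ne'⟩
  set ψ : Multiplicative ℤ_[p] →* Ωˣ := χ.comp e.symm.toMonoidHom with hψ
  have hχp : ∀ g, χ g ^ p ^ n = 1 := by
    intro g
    have h1 : χ ^ p ^ n = 1 := by rw [← hχ]; exact pow_orderOf_eq_one χ
    have := DFunLike.congr_fun h1 g
    simpa using this
  have hform : ∀ z : ℤ_[p], ψ (Multiplicative.ofAdd z) =
      ψ (Multiplicative.ofAdd 1) ^ (PadicInt.toZModPow n z).val := by
    intro z
    have h1 : z - ((PadicInt.toZModPow n z).val : ℤ_[p]) ∈ RingHom.ker (PadicInt.toZModPow (p := p) n) := by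
      rw [RingHom.mem_ker, map_sub, map_natCast, ZMod.natCast_val, ZMod.cast_id, sub_self]
    rw [PadicInt.ker_toZModPow, Ideal.mem_span_singleton] at h1
    obtain ⟨w, hw⟩ := h1
    have h2 : z = (PadicInt.toZModPow n z).val • (1 : ℤ_[p]) + (p ^ n) • w := by
      rw [nsmul_eq_mul, mul_one, nsmul_eq_mul]
      push_cast
      rw [← hw]
      ring
    conv_lhs => rw [h2]
    rw [ofAdd_add, ofAdd_nsmul, ofAdd_nsmul, map_mul, map_pow, map_pow]
    have h3 : ψ (Multiplicative.ofAdd w) ^ p ^ n = 1 := hχp _
    rw [h3, mul_one]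
  set z0 : Ωˣ := ψ (Multiplicative.ofAdd 1) with hz0
  have hχform : ∀ g, χ g = z0 ^ (PadicInt.toZModPow n (e g).toAdd).val := by
    intro g
    rw [hz0, ← hform]
    simp [hψ]
  refine ⟨(z0 : Ω), ?_, fun g => ?_⟩
  · rw [IsPrimitiveRoot.coe_units_iff]
    refine ⟨hχp _, fun l hl => ?_⟩
    rw [← hχ, orderOf_dvd_iff_pow_eq_one]
    ext g
    rw [MonoidHom.pow_apply, hχform g, ← pow_mul, mul_comm, pow_mul, hl, one_pow]
    rfl
  · rw [hχform g, Units.val_pow_eq_pow_val]

theorem tower_bound (p : ℕ) [Fact p.Prime] (k K L : Type) [Field k] [Finite k]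
    [Field K] [Field L] [Algebra k K] [Algebra K L] [Algebra k L] [IsScalarTower k K L]
    (T : ZpTower p k K L) (Ω : Type) [Field Ω] [Algebra ℚ_[p] Ω] :
    (∃ c : ℕ, 0 < c ∧ ∀ (n : ℕ) (χ : (L ≃ₐ[K] L) →* Ωˣ), orderOf χ = p ^ n →
      ((p ^ n : ℕ) : Cardinal) ≤
        (c : Cardinal) * Module.rank ℚ_[p] (splittingField ℚ_[p] (T.lFunction χ))) ∧
    ∀ χ : ℕ → ((L ≃ₐ[K] L) →* Ωˣ), (∀ n, orderOf (χ n) = p ^ n) →
      ∀ B : ℕ, ∃ N : ℕ, ∀ n, N ≤ n →
        (B : Cardinal) ≤ Module.rank ℚ_[p] (splittingField ℚ_[p] (T.lFunction (χ n))) := by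
  have hp : Fact p.Prime := inferInstance
  have hinf : Infinite (ClosedPoint k K) := infinite_points T.curve
  have hne : Nonempty {x : ClosedPoint k K // x ∉ T.S} := by
    obtain ⟨x, hx⟩ := T.finite.exists_notMem
    exact ⟨⟨x, hx⟩⟩
  have hd : ∀ x : {x : ClosedPoint k K // x ∉ T.S}, 0 < x.1.deg := fun x =>
    x.1.deg_pos T.curve
  have hfin : ∀ m, {x : {x : ClosedPoint k K // x ∉ T.S} | x.1.deg ≤ m}.Finite := by
    intro m
    have h1 := (finite_points T.curve m).preimage
      (f := fun x : {x : ClosedPoint k K // x ∉ T.S} => x.1) Subtype.val_injective.injOn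
    exact h1
  obtain ⟨c, hc, H⟩ := abstract_bound (Ω := Ω)
    (fun x : {x : ClosedPoint k K // x ∉ T.S} => x.1.deg) hd hfin
    (fun x => (T.iso (frob x.1)).toAdd)
  have main : ∀ (n : ℕ) (χ : (L ≃ₐ[K] L) →* Ωˣ), orderOf χ = p ^ n →
      ((p ^ n : ℕ) : Cardinal) ≤
        (c : Cardinal) * Module.rank ℚ_[p] (splittingField ℚ_[p] (T.lFunction χ)) := by
    intro n χ hχ
    obtain ⟨ζ, hζ, hform⟩ := char_eq T.iso.toMulEquiv χ n hχ
    have h1 := H n ζ hζ
    have h2 : T.lFunction χ = eulerProduct
        (fun x : {x : ClosedPoint k K // x ∉ T.S} => x.1.deg)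
        (fun x => ζ ^ (PadicInt.toZModPow n ((T.iso (frob x.1)).toAdd)).val) := by
      unfold ZpTower.lFunction
      congr 1
      funext x
      exact hform _
    rw [h2]
    exact h1
  refine ⟨⟨c, hc, main⟩, fun χ hχ B => ?_⟩
  refine ⟨c * B, fun n hn => ?_⟩
  have h1 := main n (χ n) (hχ n)
  by_contra hcon
  rw [not_le] at hcon
  obtain ⟨r, hr⟩ := Cardinal.lt_aleph0.mp (hcon.trans (Cardinal.natCast_lt_aleph0))
  rw [hr] at h1 hcon
  have h2 : p ^ n ≤ c * r := by exact_mod_cast h1
  have h3 : r < B := by exact_mod_cast hcon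
  have h4 : n < p ^ n := Nat.lt_pow_self hp.out.one_lt
  have h5 : c * r ≤ c * B := Nat.mul_le_mul_left _ h3.le
  omega

end Pool.Agent.H639R3
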