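import Pool.Agent.KS6_3.ZL.H639R3.Places

set_option autoImplicit false

/-!
Curves over a finite field, given by their function fields; closed points and degrees.
-/

namespace Pool.Agent.H639R3

open IsDedekindDomain Polynomial

/-- `F` is the function field of a smooth projective geometrically connected curve over the perfect
field `k`: a finitely generated extension field of transcendence degree one in which `k` is
algebraically closed. -/
def IsCurve (k F : Type) [Field k] [Field F] [Algebra k F] : Prop :=
  (∃ s : Finset F, IntermediateField.adjoin k (s : Set F) = ⊤) ∧ Algebra.trdeg k F = 1 ∧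
    ∀ y : F, IsAlgebraic k y → ∃ a : k, algebraMap k F a = y

/-- A closed point of the smooth projective curve over `k` with function field `F`: a valuation ring
of `F` which contains `k` and is different from `F`. -/
structure ClosedPoint (k F : Type) [Field k] [Field F] [Algebra k F] where
  /-- the valuation ring, i.e. the local ring of the curve at the point -/
  ring : ValuationSubring F
  const_mem : ∀ a : k, algebraMap k F a ∈ ring
  ne_top : ring ≠ ⊤

variable {k F : Type} [Field k] [Field F] [Algebra k F]

theorem ClosedPoint.ext' {x y : ClosedPoint k F} (h : x.ring = y.ring) : x = y := by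
  cases x; cases y; cases h; rfl

/-- the inclusion of the constants in the local ring at `x`, followed by the reduction map to the
residue field at `x` -/
noncomputable def ClosedPoint.constHom (x : ClosedPoint k F) :
    k →+* IsLocalRing.ResidueField x.ring :=
  (IsLocalRing.residue x.ring).comp ((algebraMap k F).codRestrict x.ring.toSubring x.const_mem)

/-- the degree of a closed point: the degree of its residue field over `k` -/
noncomputable def ClosedPoint.deg (x : ClosedPoint k F) : ℕ :=
  @Module.finrank k (IsLocalRing.ResidueField x.ring) _ _ x.constHom.toAlgebra.toModule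

section

variable {A : Type} [CommRing A] [Algebra k A] [Algebra A F] [IsScalarTower k A F]

theorem residue_finite [IsDedekindDomain A] [IsFractionRing A F]
    [Algebra.FiniteType k A] (x : ClosedPoint k F) (h : ∀ a : A, algebraMap A F a ∈ x.ring) :
    @Module.Finite k (IsLocalRing.ResidueField x.ring) _ _ x.constHom.toAlgebra.toModule := by
  let _ : Algebra k (IsLocalRing.ResidueField x.ring) := x.constHom.toAlgebra
  let φ : A →ₐ[k] IsLocalRing.ResidueField x.ring :=
    { (IsLocalRing.residue x.ring).comp ((algebraMap A F).codRestrict x.ring.toSubring h) with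
      commutes' := by
        intro r
        change (IsLocalRing.residue x.ring)
          (((algebraMap A F).codRestrict x.ring.toSubring h) (algebraMap k A r)) = x.constHom r
        unfold ClosedPoint.constHom
        rw [RingHom.comp_apply]
        congr 1
        apply Subtype.ext
        change algebraMap A F (algebraMap k A r) = algebraMap k F r
        rw [← IsScalarTower.algebraMap_apply] }
  have hφ : Function.Surjective φ := residue_surjective x.ring h x.ne_top
  have hft : Algebra.FiniteType k (IsLocalRing.ResidueField x.ring) :=
    Algebra.FiniteType.of_surjective φ hφ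
  exact finite_of_finite_type_of_isJacobsonRing k (IsLocalRing.ResidueField x.ring)

theorem frob_fixed [Finite k] (x : ClosedPoint k F)
    (hfin : @Module.Finite k (IsLocalRing.ResidueField x.ring) _ _ x.constHom.toAlgebra.toModule)
    (r : IsLocalRing.ResidueField x.ring) : r ^ (Nat.card k) ^ x.deg = r := by
  let _ : Algebra k (IsLocalRing.ResidueField x.ring) := x.constHom.toAlgebra
  have : Fintype k := Fintype.ofFinite k
  have hf : Finite (IsLocalRing.ResidueField x.ring) := Module.finite_of_finite k
  have : Fintype (IsLocalRing.ResidueField x.ring) := Fintype.ofFinite _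
  have h1 : Fintype.card (IsLocalRing.ResidueField x.ring) = (Nat.card k) ^ x.deg := by
    rw [Nat.card_eq_fintype_card]
    exact Module.card_eq_pow_finrank
  rw [← h1]
  exact FiniteField.pow_card r

theorem deg_pos (x : ClosedPoint k F)
    (hfin : @Module.Finite k (IsLocalRing.ResidueField x.ring) _ _ x.constHom.toAlgebra.toModule) :
    0 < x.deg := by
  let _ : Algebra k (IsLocalRing.ResidueField x.ring) := x.constHom.toAlgebra
  exact Module.finrank_pos

theorem finite_deg_le [Finite k] [IsDedekindDomain A] [IsFractionRing A F]
    [Algebra.FiniteType k A] (t : A) (ht : Transcendental k (algebraMap A F t)) (m : ℕ) :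
    {x : ClosedPoint k F | (∀ a : A, algebraMap A F a ∈ x.ring) ∧ x.deg ≤ m}.Finite := by
  classical
  have hinj : Function.Injective (algebraMap A F) := IsFractionRing.injective A F
  set e : A := ∏ j ∈ Finset.range (m + 1), (t ^ (Nat.card k) ^ (j + 1) - t) with he
  have hq : 1 < Nat.card k := Finite.one_lt_card
  have he0 : e ≠ 0 := by
    rw [he, Finset.prod_ne_zero_iff]
    intro j _ h
    apply ht
    refine ⟨X ^ (Nat.card k) ^ (j + 1) - X, ?_, ?_⟩
    · apply FiniteField.X_pow_card_sub_X_ne_zero
      exact Nat.one_lt_pow (Nat.succ_ne_zero j) hq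
    · have := congrArg (algebraMap A F) h
      simpa using this
  have hI : Ideal.span {e} ≠ (0 : Ideal A) := by
    rw [Ne, Ideal.zero_eq_bot, Ideal.span_singleton_eq_bot]; exact he0
  have hfac := Ideal.finite_factors hI
  set s := {x : ClosedPoint k F | (∀ a : A, algebraMap A F a ∈ x.ring) ∧ x.deg ≤ m} with hs
  have hfin : ∀ x ∈ s, @Module.Finite k (IsLocalRing.ResidueField x.ring) _ _
    x.constHom.toAlgebra.toModule := fun x hx => residue_finite x hx.1
  -- the map to height one primes
  let f : s → {v : HeightOneSpectrum A | v.asIdeal ∣ Ideal.span {e}} := fun x =>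
    ⟨⟨cent x.1.ring x.2.1, cent_isPrime _ _, cent_ne_bot _ _ x.1.ne_top⟩, by
      rw [Set.mem_ofPred_eq, Ideal.dvd_span_singleton]
      change e ∈ cent x.1.ring x.2.1
      obtain ⟨j, hj⟩ : ∃ j, x.1.deg = j + 1 :=
        Nat.exists_eq_succ_of_ne_zero (deg_pos x.1 (hfin x.1 x.2)).ne'
      have hjm : j < m + 1 := by have := x.2.2; omega
      rw [he]
      have hmem : t ^ (Nat.card k) ^ (j + 1) - t ∈ cent x.1.ring x.2.1 := by
        let ψ : A →+* x.1.ring := (algebraMap A F).codRestrict x.1.ring.toSubring x.2.1
        have h0 : IsLocalRing.residue x.1.ring (ψ (t ^ (Nat.card k) ^ (j + 1) - t)) = 0 := by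
          rw [map_sub, map_sub, map_pow, map_pow, ← hj, frob_fixed x.1 (hfin x.1 x.2), sub_self]
        exact (IsLocalRing.residue_eq_zero_iff _).mp h0
      exact Ideal.mem_of_dvd _ (Finset.dvd_prod_of_mem _ (Finset.mem_range.mpr hjm)) hmem⟩
  have hf : Function.Injective f := by
    intro x y hxy
    have h1 : cent x.1.ring x.2.1 = cent y.1.ring y.2.1 := by
      have := congrArg (fun z => z.1.asIdeal) hxy
      exact this
    exact Subtype.ext (ClosedPoint.ext'
      (eq_of_cent_eq _ _ x.2.1 y.2.1 x.1.ne_top y.1.ne_top h1))
  have : Finite {v : HeightOneSpectrum A | v.asIdeal ∣ Ideal.span {e}} := hfac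
  have : Finite s := Finite.of_injective f hf
  exact Set.toFinite s

theorem infinite_closedPoints [IsDedekindDomain A] [IsFractionRing A F]
    [Algebra.FiniteType k A] (hA : ¬ IsField A) : Infinite (ClosedPoint k F) := by
  have := infinite_height_one (A := A) k hA
  choose O hO1 hO2 hO3 using fun v : HeightOneSpectrum A => exists_of_height_one (F := F) v
  refine Infinite.of_injective (fun v : HeightOneSpectrum A =>
    (⟨O v, fun a => by rw [IsScalarTower.algebraMap_apply k A F]; exact hO1 v _, hO2 v⟩ :
      ClosedPoint k F)) ?_
  intro v w hvw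
  have h1 : O v = O w := congrArg ClosedPoint.ring hvw
  apply HeightOneSpectrum.ext
  rw [← hO3 v, ← hO3 w]
  ext a
  rw [mem_cent, mem_cent, h1]

end

open scoped IntermediateField.algebraAdjoinAdjoin in
/-- The affine ring attached to a separating element. -/
theorem exists_affine (t : F) (ht : Transcendental k t)
    (hfin : FiniteDimensional (IntermediateField.adjoin k {t}) F)
    (hsep : Algebra.IsSeparable (IntermediateField.adjoin k {t}) F) :
    ∃ (A : Subalgebra k F), IsDedekindDomain A ∧ IsFractionRing A F ∧ Algebra.FiniteType k A ∧
      t ∈ A ∧ ¬ IsField A ∧ ∀ O : ValuationSubring F, (∀ a : k, algebraMap k F a ∈ O) → t ∈ O →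
        ∀ a ∈ A, a ∈ O := by
  set R := Algebra.adjoin k {t} with hR
  have hpid : IsPrincipalIdealRing R :=
    IsPrincipalIdealRing.of_surjective (Polynomial.algEquivOfTranscendental k t ht).toRingHom
      (Polynomial.algEquivOfTranscendental k t ht).surjective
  have hded : IsDedekindDomain R := inferInstance
  have hD : IsDedekindDomain (integralClosure R F) :=
    integralClosure.isDedekindDomain R (IntermediateField.adjoin k {t}) (L := F)
  have hFr : IsFractionRing (integralClosure R F) F :=
    integralClosure.isFractionRing_of_finite_extension (IntermediateField.adjoin k {t}) F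
  have hfinR : Module.Finite R (integralClosure R F) :=
    IsIntegralClosure.finite R (IntermediateField.adjoin k {t}) F (integralClosure R F)
  have hftR : Algebra.FiniteType k R := by
    rw [← Subalgebra.fg_iff_finiteType]
    exact ⟨{t}, by simp [hR]⟩
  have hft : Algebra.FiniteType k (integralClosure R F) :=
    Algebra.FiniteType.trans hftR inferInstance
  refine ⟨(integralClosure R F).restrictScalars k, hD, hFr, hft, ?_, ?_, ?_⟩
  · have : algebraMap R F ⟨t, Algebra.self_mem_adjoin_singleton k t⟩ ∈ integralClosure R F :=
      Subalgebra.algebraMap_mem _ _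
    exact this
  · intro hfield
    have hfield' : IsField (integralClosure R F) := hfield
    have hRf : IsField R := by
      have : Algebra.IsIntegral R (integralClosure R F) := inferInstance
      have hinj : Function.Injective (algebraMap R (integralClosure R F)) := by
        intro a b hab
        have h1 := congrArg (fun z : integralClosure R F => (z : F)) hab
        exact Subtype.ext h1
      exact isField_of_isIntegral_of_isField hinj hfield'
    have hPf : IsField k[X] :=
      (MulEquiv.isField hRf (Polynomial.algEquivOfTranscendental k t ht).toMulEquiv)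
    exact Polynomial.not_isField k hPf
  · intro O hk htO a ha
    have hRO : ∀ r ∈ R, r ∈ O := by
      intro r hr
      induction hr using Algebra.adjoin_induction with
      | mem x hx => rw [Set.mem_singleton_iff] at hx; rw [hx]; exact htO
      | algebraMap r => exact hk r
      | add x y _ _ hx hy => exact O.add_mem _ _ hx hy
      | mul x y _ _ hx hy => exact O.mul_mem _ _ hx hy
    have hint : IsIntegral R a := ha
    obtain ⟨f, hf, hfa⟩ := hint
    have hint2 : IsIntegral O a := by
      let ψ : R →+* O := (algebraMap R F).codRestrict O.toSubring fun r => hRO r r.2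
      refine ⟨f.map ψ, hf.map ψ, ?_⟩
      rw [eval₂_map]
      exact hfa
    obtain ⟨y, hy⟩ := IsIntegrallyClosed.isIntegral_iff.mp hint2
    rw [← hy]
    exact y.2

theorem exists_separating [Finite k] (hF : IsCurve k F) : ∃ t : F, Transcendental k t ∧
    FiniteDimensional (IntermediateField.adjoin k {t}) F ∧
      Algebra.IsSeparable (IntermediateField.adjoin k {t}) F := by
  obtain ⟨⟨s, hs⟩, htr, -⟩ := hF
  have hft : Algebra.EssFiniteType k F := IntermediateField.fg_top_iff.mp ⟨s, hs⟩
  obtain ⟨b, hb, hsep⟩ := exists_isTranscendenceBasis_and_isSeparable_of_perfectField k F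
  have hcard := hb.cardinalMk_eq_trdeg
  rw [htr] at hcard
  have hb1 : b.card = 1 := by
    have h1 : Cardinal.mk b = (b.card : Cardinal) := Cardinal.mk_coe_finset
    rw [h1] at hcard
    exact_mod_cast hcard
  obtain ⟨t, rfl⟩ := Finset.card_eq_one.mp hb1
  rw [Finset.coe_singleton] at hsep
  have halg : Algebra.IsAlgebraic (IntermediateField.adjoin k {t}) F := inferInstance
  have hess : Algebra.EssFiniteType (IntermediateField.adjoin k {t}) F :=
    Algebra.EssFiniteType.of_comp k _ _
  refine ⟨t, ?_, Algebra.finite_of_essFiniteType_of_isAlgebraic, hsep⟩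
  exact hb.1.transcendental ⟨t, by simp⟩

theorem adjoin_simple_inv' (t : F) :
    IntermediateField.adjoin k {t⁻¹} = IntermediateField.adjoin k {t} := by
  apply le_antisymm
  · rw [IntermediateField.adjoin_simple_le_iff]
    exact inv_mem (IntermediateField.mem_adjoin_simple_self k t)
  · rw [IntermediateField.adjoin_simple_le_iff]
    have := inv_mem (IntermediateField.mem_adjoin_simple_self k t⁻¹)
    rwa [inv_inv] at this

/-- every closed point has a finite residue field -/
theorem ClosedPoint.finite_residue [Finite k] (hF : IsCurve k F) (x : ClosedPoint k F) :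
    @Module.Finite k (IsLocalRing.ResidueField x.ring) _ _ x.constHom.toAlgebra.toModule := by
  obtain ⟨t, ht, hfin, hsep⟩ := exists_separating hF
  have key : ∀ t : F, Transcendental k t → FiniteDimensional (IntermediateField.adjoin k {t}) F →
      Algebra.IsSeparable (IntermediateField.adjoin k {t}) F → t ∈ x.ring →
      @Module.Finite k (IsLocalRing.ResidueField x.ring) _ _ x.constHom.toAlgebra.toModule := by
    intro t ht hfin hsep htx
    obtain ⟨A, h1, h2, h3, h4, h5, h6⟩ := exists_affine t ht hfin hsep
    exact residue_finite (A := A) x fun a => h6 x.ring x.const_mem htx a a.2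
  rcases x.ring.mem_or_inv_mem t with h | h
  · exact key t ht hfin hsep h
  · have hadj : IntermediateField.adjoin k {t⁻¹} = IntermediateField.adjoin k {t} :=
      adjoin_simple_inv' t
    refine key t⁻¹ ?_ ?_ ?_ h
    · intro halg
      exact ht (by simpa using halg.inv)
    · rw [hadj]; exact hfin
    · rw [hadj]; exact hsep

theorem ClosedPoint.deg_pos [Finite k] (hF : IsCurve k F) (x : ClosedPoint k F) : 0 < x.deg :=
  Pool.Agent.H639R3.deg_pos x (x.finite_residue hF)

theorem finite_points [Finite k] (hF : IsCurve k F) (m : ℕ) :
    {x : ClosedPoint k F | x.deg ≤ m}.Finite := by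
  obtain ⟨t, ht, hfin, hsep⟩ := exists_separating hF
  have key : ∀ t : F, Transcendental k t → FiniteDimensional (IntermediateField.adjoin k {t}) F →
      Algebra.IsSeparable (IntermediateField.adjoin k {t}) F →
      {x : ClosedPoint k F | t ∈ x.ring ∧ x.deg ≤ m}.Finite := by
    intro t ht hfin hsep
    obtain ⟨A, h1, h2, h3, h4, h5, h6⟩ := exists_affine t ht hfin hsep
    refine (finite_deg_le (A := A) ⟨t, h4⟩ ht m).subset ?_
    rintro x ⟨hx1, hx2⟩
    exact ⟨fun a => h6 x.ring x.const_mem hx1 a a.2, hx2⟩
  have hadj : IntermediateField.adjoin k {t⁻¹} = IntermediateField.adjoin k {t} :=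
    adjoin_simple_inv' t
  have h2 := key t⁻¹ (by
    intro halg
    exact ht (by simpa using halg.inv)) (by rw [hadj]; exact hfin) (by rw [hadj]; exact hsep)
  refine ((key t ht hfin hsep).union h2).subset ?_
  intro x hx
  rcases x.ring.mem_or_inv_mem t with h | h
  · exact Or.inl ⟨h, hx⟩
  · exact Or.inr ⟨h, hx⟩

theorem infinite_points [Finite k] (hF : IsCurve k F) : Infinite (ClosedPoint k F) := by
  obtain ⟨t, ht, hfin, hsep⟩ := exists_separating hF
  obtain ⟨A, h1, h2, h3, h4, h5, h6⟩ := exists_affine t ht hfin hsep
  exact infinite_closedPoints (A := A) h5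

end Pool.Agent.H639R3
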