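import Mathlib

set_option autoImplicit false

/-!
Sums of `p`-power roots of unity over `ℚ_[p]`: a sum `∑ ζ ^ a x` with fixed exponents `a x` in
`ℤ_[p]`, not all zero, generates an extension of degree at least `c * p ^ n`, when `ζ` has exact
order `p ^ n`.
-/

namespace Pool.Agent.H639R3

open Polynomial

variable {p : ℕ} [hp : Fact p.Prime]

theorem irred_cyclotomic (n : ℕ) : Irreducible (cyclotomic (p ^ (n + 1)) ℚ_[p]) := by
  have hE := cyclotomic_prime_pow_comp_X_add_one_isEisensteinAt p n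
  set f := (cyclotomic (p ^ (n + 1)) ℤ).comp (X + 1) with hf
  have hfm : f.Monic := by
    rw [hf, show (X + 1 : ℤ[X]) = X + C 1 by simp]
    refine (cyclotomic.monic _ ℤ).comp (monic_X_add_C 1) fun h => ?_
    rw [natDegree_X_add_C] at h
    exact zero_ne_one h.symm
  set g := f.map (Int.castRingHom ℤ_[p]) with hg
  have hgm : g.Monic := hfm.map _
  have hgd : g.natDegree = f.natDegree := hfm.natDegree_map _
  have hpp : Prime ((p : ℤ_[p])) := PadicInt.prime_p
  have hprime : (Ideal.span {(p : ℤ_[p])}).IsPrime :=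
    (Ideal.span_singleton_prime hpp.ne_zero).mpr hpp
  have hgE : g.IsEisensteinAt (Ideal.span {(p : ℤ_[p])}) := by
    refine Monic.isEisensteinAt_of_mem_of_notMem hgm hprime.ne_top ?_ ?_
    · intro i hi
      rw [hgd] at hi
      have h1 := hE.mem hi
      rw [Ideal.submodule_span_eq, Ideal.mem_span_singleton] at h1
      rw [hg, coeff_map, Ideal.mem_span_singleton]
      obtain ⟨c, hc⟩ := h1
      rw [hc]
      simp
    · have h1 : f.coeff 0 = p := by
        rw [hf, coeff_zero_eq_eval_zero, eval_comp]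
        simp only [eval_add, eval_X, eval_one, zero_add]
        exact eval_one_cyclotomic_prime_pow n
      rw [hg, coeff_map, h1, Ideal.span_singleton_pow, Ideal.mem_span_singleton]
      simp only [eq_intCast, Int.cast_natCast]
      intro h
      have h2 : (p : ℤ_[p]) ^ 2 ∣ (p : ℤ_[p]) ^ 1 := by rw [pow_one]; exact h
      have h3 := (pow_dvd_pow_iff hpp.ne_zero hpp.not_isUnit).mp h2
      omega
  have hfd : 0 < g.natDegree := by
    rw [hgd, hf, show (X + 1 : ℤ[X]) = X + C 1 by simp, natDegree_comp, natDegree_X_add_C,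
      mul_one, natDegree_cyclotomic]
    exact Nat.totient_pos.mpr (pow_pos hp.out.pos _)
  have hirr : Irreducible g := hgE.irreducible hprime hgm.isPrimitive hfd
  have hirr2 : Irreducible (g.map (algebraMap ℤ_[p] ℚ_[p])) :=
    (hgm.irreducible_iff_irreducible_map_fraction_map (K := ℚ_[p])).mp hirr
  have heq : g.map (algebraMap ℤ_[p] ℚ_[p]) =
      taylor 1 (cyclotomic (p ^ (n + 1)) ℚ_[p]) := by
    rw [hg, hf, taylor_apply]
    simp [Polynomial.map_comp]
  rw [heq] at hirr2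
  have := (MulEquiv.irreducible_iff (taylorEquiv (1 : ℚ_[p]))).mp hirr2
  exact this

theorem minpoly_zeta {Ω : Type*} [Field Ω] [Algebra ℚ_[p] Ω] (n : ℕ) (ζ : Ω)
    (hζ : IsPrimitiveRoot ζ (p ^ (n + 1))) :
    minpoly ℚ_[p] ζ = cyclotomic (p ^ (n + 1)) ℚ_[p] := by
  symm
  apply minpoly.eq_of_irreducible_of_monic (irred_cyclotomic n)
  · rw [aeval_def, ← eval_map, map_cyclotomic]
    exact hζ.isRoot_cyclotomic (pow_pos hp.out.pos _)
  · exact cyclotomic.monic _ _

/-- A polynomial of degree less than `p ^ (n+1)` divisible by the cyclotomic polynomial has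
coefficients periodic with period `p ^ n`. -/
theorem coeff_periodic {K : Type*} [Field K] (n : ℕ) (M : K[X]) (hdeg : M.natDegree < p ^ (n + 1))
    (hdvd : cyclotomic (p ^ (n + 1)) K ∣ M) (k : ℕ) (hk : k + p ^ n < p ^ (n + 1)) :
    M.coeff (k + p ^ n) = M.coeff k := by
  obtain ⟨h, rfl⟩ := hdvd
  by_cases hh : h = 0
  · subst hh; simp
  have hphi : cyclotomic (p ^ (n + 1)) K ≠ 0 := cyclotomic_ne_zero _ _
  have hdegh : h.natDegree < p ^ n := by
    rw [natDegree_mul hphi hh, natDegree_cyclotomic, Nat.totient_prime_pow_succ hp.out] at hdeg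
    have h1 : p ^ (n + 1) = p ^ n * (p - 1) + p ^ n := by
      have := hp.out.pos
      obtain ⟨q, hq⟩ : ∃ q, p = q + 1 := ⟨p - 1, by omega⟩
      subst hq
      rw [pow_succ]
      simp only [Nat.add_sub_cancel]
      ring
    omega
  have key : (cyclotomic (p ^ (n + 1)) K * h) * (X ^ p ^ n - 1) = h * (X ^ p ^ (n + 1) - 1) := by
    rw [← cyclotomic_prime_pow_mul_X_pow_sub_one K p n]
    ring
  have hc := congrArg (fun f => f.coeff (k + p ^ n)) key
  simp only [mul_sub, mul_one, coeff_sub, coeff_mul_X_pow] at hc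
  rw [coeff_mul_X_pow', if_neg (by omega), coeff_eq_zero_of_natDegree_lt (p := h) (by omega)] at hc
  have : (cyclotomic (p ^ (n + 1)) K * h).coeff k -
    (cyclotomic (p ^ (n + 1)) K * h).coeff (k + p ^ n) = 0 := by rw [hc]; ring
  exact (sub_eq_zero.mp this).symm

theorem exists_sep {ι : Type*} (J : Finset ι) (a : ι → ℤ_[p]) (x0 : ι) :
    ∃ n0 : ℕ, ∀ n, n0 ≤ n → ∀ x ∈ J, PadicInt.toZModPow n (a x) = PadicInt.toZModPow n (a x0) →
      a x = a x0 := by
  classical
  refine ⟨J.sup (fun x => (a x - a x0).valuation + 1), fun n hn x hx h => ?_⟩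
  by_contra hne
  have h0 : a x - a x0 ≠ 0 := sub_ne_zero.mpr hne
  have h1 : (a x - a x0).valuation + 1 ≤ n :=
    (Finset.le_sup (f := fun x => (a x - a x0).valuation + 1) hx).trans hn
  have h2 : PadicInt.toZModPow n (a x - a x0) = 0 := by rw [map_sub, h, sub_self]
  have h3 : a x - a x0 ∈ RingHom.ker (PadicInt.toZModPow (p := p) n) := h2
  rw [PadicInt.ker_toZModPow, PadicInt.mem_span_pow_iff_le_valuation _ h0] at h3
  omega

/-- the sum of the `u`-th powers of `ζ ^ a x` -/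
noncomputable def Tsum {Ω : Type*} [Field Ω] {ι : Type*} (J : Finset ι) (a : ι → ℤ_[p]) (n : ℕ)
    (ζ : Ω) (u : ZMod (p ^ n)) : Ω :=
  ∑ x ∈ J, ζ ^ (u * PadicInt.toZModPow n (a x)).val

section

variable {Ω : Type*} [Field Ω] [Algebra ℚ_[p] Ω] {ι : Type*} (J : Finset ι) (a : ι → ℤ_[p])

omit [Algebra ℚ_[p] Ω] in
theorem pow_val_mul {n : ℕ} {ζ : Ω} (hζ : IsPrimitiveRoot ζ (p ^ n)) (u e : ZMod (p ^ n)) :
    ζ ^ (u * e).val = (ζ ^ u.val) ^ e.val := by
  rw [← pow_mul]
  have : NeZero (p ^ n) := ⟨(pow_pos hp.out.pos n).ne'⟩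
  rw [ZMod.val_mul]
  conv_rhs => rw [← Nat.mod_add_div (u.val * e.val) (p ^ n)]
  rw [pow_add, pow_mul ζ (p ^ n), hζ.pow_eq_one, one_pow, mul_one]

theorem Tsum_root (n : ℕ) (ζ : Ω) (hζ : IsPrimitiveRoot ζ (p ^ (n + 1)))
    (u : (ZMod (p ^ (n + 1)))ˣ) :
    aeval (Tsum J a (n + 1) ζ u) (minpoly ℚ_[p] (Tsum J a (n + 1) ζ 1)) = 0 := by
  have : NeZero (p ^ (n + 1)) := ⟨(pow_pos hp.out.pos _).ne'⟩
  set P : ℚ_[p][X] := ∑ x ∈ J, X ^ (PadicInt.toZModPow (n + 1) (a x)).val with hP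
  set G : ℚ_[p][X] := (minpoly ℚ_[p] (Tsum J a (n + 1) ζ 1)).comp P with hG
  have h1 : ∀ η : Ω, aeval η G = aeval (∑ x ∈ J, η ^ (PadicInt.toZModPow (n + 1) (a x)).val)
      (minpoly ℚ_[p] (Tsum J a (n + 1) ζ 1)) := by
    intro η
    rw [hG, aeval_comp, hP, map_sum]
    simp
  have h2 : aeval ζ G = 0 := by
    rw [h1]
    have : (∑ x ∈ J, ζ ^ (PadicInt.toZModPow (n + 1) (a x)).val) = Tsum J a (n + 1) ζ 1 := by
      simp [Tsum]
    rw [this]
    exact minpoly.aeval _ _
  have h3 := minpoly.dvd ℚ_[p] ζ h2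
  have hu : IsPrimitiveRoot (ζ ^ (u : ZMod (p ^ (n + 1))).val) (p ^ (n + 1)) :=
    hζ.pow_of_coprime _ (ZMod.val_coe_unit_coprime u)
  rw [minpoly_zeta n ζ hζ, ← minpoly_zeta n _ hu] at h3
  have h4 : aeval (ζ ^ (u : ZMod (p ^ (n + 1))).val) G = 0 := by
    obtain ⟨q, hq⟩ := h3
    rw [hq, map_mul, minpoly.aeval, zero_mul]
  rw [h1] at h4
  have h5 : Tsum J a (n + 1) ζ u = ∑ x ∈ J, (ζ ^ (u : ZMod (p ^ (n + 1))).val) ^
      (PadicInt.toZModPow (n + 1) (a x)).val := by
    unfold Tsum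
    refine Finset.sum_congr rfl fun x _ => ?_
    rw [pow_val_mul hζ]
  rw [h5]
  exact h4

theorem coeff_sum_X_pow {K : Type*} [Field K] [DecidableEq ι] (f : ι → ℕ) (k : ℕ) :
    (∑ x ∈ J, (X : K[X]) ^ f x).coeff k = ((J.filter fun x => f x = k).card : K) := by
  rw [finsetSum_coeff, Finset.card_filter]
  push_cast
  refine Finset.sum_congr rfl fun x _ => ?_
  rw [coeff_X_pow]
  by_cases h : f x = k
  · simp [h]
  · simp [h, Ne.symm h]

theorem Tsum_eq (x0 : ι) (hx0 : x0 ∈ J) (n : ℕ)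
    (hsep : ∀ x ∈ J, PadicInt.toZModPow n (a x) = PadicInt.toZModPow n (a x0) → a x = a x0)
    (ζ : Ω) (hζ : IsPrimitiveRoot ζ (p ^ (n + 1))) (u u' : (ZMod (p ^ (n + 1)))ˣ)
    (h : Tsum J a (n + 1) ζ u = Tsum J a (n + 1) ζ u') :
    ∃ y ∈ J, (u : ZMod (p ^ (n + 1))) * PadicInt.toZModPow (n + 1) (a x0) =
      (u' : ZMod (p ^ (n + 1))) * PadicInt.toZModPow (n + 1) (a y) := by
  classical
  have hpos : 0 < p ^ n := pow_pos hp.out.pos n
  have hNZ : NeZero (p ^ (n + 1)) := ⟨(pow_pos hp.out.pos _).ne'⟩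
  by_contra hcon
  push Not at hcon
  set f : ι → ℕ := fun x => ((u : ZMod (p ^ (n + 1))) * PadicInt.toZModPow (n + 1) (a x)).val with hf
  set f' : ι → ℕ := fun x => ((u' : ZMod (p ^ (n + 1))) * PadicInt.toZModPow (n + 1) (a x)).val
    with hf'
  set M : ℚ_[p][X] := ∑ x ∈ J, X ^ f x - ∑ x ∈ J, X ^ f' x with hM
  have hMdeg : M.natDegree < p ^ (n + 1) := by
    have h1 : (∑ x ∈ J, (X : ℚ_[p][X]) ^ f x).natDegree ≤ p ^ (n + 1) - 1 := by
      refine natDegree_sum_le_of_forall_le _ _ fun x _ => ?_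
      rw [natDegree_X_pow]
      have := ZMod.val_lt ((u : ZMod (p ^ (n + 1))) * PadicInt.toZModPow (n + 1) (a x))
      simp only [hf]
      omega
    have h2 : (∑ x ∈ J, (X : ℚ_[p][X]) ^ f' x).natDegree ≤ p ^ (n + 1) - 1 := by
      refine natDegree_sum_le_of_forall_le _ _ fun x _ => ?_
      rw [natDegree_X_pow]
      have := ZMod.val_lt ((u' : ZMod (p ^ (n + 1))) * PadicInt.toZModPow (n + 1) (a x))
      simp only [hf']
      omega
    have h3 := natDegree_sub_le_of_le h1 h2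
    have h4 : 0 < p ^ (n + 1) := pow_pos hp.out.pos _
    rw [← hM] at h3
    rw [max_self] at h3
    omega
  have hMz : aeval ζ M = 0 := by
    rw [hM, map_sub, map_sum, map_sum]
    simp only [map_pow, aeval_X]
    rw [sub_eq_zero]
    exact h
  have hdvd : cyclotomic (p ^ (n + 1)) ℚ_[p] ∣ M := by
    rw [← minpoly_zeta n ζ hζ]
    exact minpoly.dvd _ _ hMz
  have hcoef : ∀ k, M.coeff k = ((J.filter fun x => f x = k).card : ℚ_[p]) -
      ((J.filter fun x => f' x = k).card : ℚ_[p]) := by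
    intro k
    rw [hM, coeff_sub, coeff_sum_X_pow, coeff_sum_X_pow]
  set i := f x0 with hi
  have hilt : i < p ^ (n + 1) := ZMod.val_lt _
  have h0 : (J.filter fun x => f' x = i).card = 0 := by
    rw [Finset.card_eq_zero, Finset.filter_eq_empty_iff]
    intro y hy hyi
    exact hcon y hy (ZMod.val_injective _ hyi.symm)
  have h1 : 0 < (J.filter fun x => f x = i).card :=
    Finset.card_pos.mpr ⟨x0, Finset.mem_filter.mpr ⟨hx0, rfl⟩⟩
  -- the other exponent
  obtain ⟨k, hki, hk, hkmod⟩ : ∃ k, k ≠ i ∧ M.coeff k = M.coeff i ∧ k ≡ i [MOD p ^ n] := by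
    by_cases hlt : i + p ^ n < p ^ (n + 1)
    · exact ⟨i + p ^ n, by omega, coeff_periodic n M hMdeg hdvd i hlt, by simp [Nat.ModEq]⟩
    · have h2 : 2 * p ^ n ≤ p ^ (n + 1) := by
        rw [pow_succ, mul_comm]
        exact Nat.mul_le_mul_left _ hp.out.two_le
      have h3 : p ^ n ≤ i := by omega
      obtain ⟨j, hj⟩ := Nat.exists_eq_add_of_le' h3
      refine ⟨j, by omega, ?_, ?_⟩
      · rw [hj]
        exact (coeff_periodic n M hMdeg hdvd j (by omega)).symm
      · rw [hj]; simp [Nat.ModEq]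
  rw [hcoef, hcoef, h0] at hk
  have hk' : (J.filter fun x => f x = k).card = (J.filter fun x => f x = i).card +
      (J.filter fun x => f' x = k).card := by
    have : (((J.filter fun x => f x = k).card : ℕ) : ℚ_[p]) =
      (((J.filter fun x => f x = i).card + (J.filter fun x => f' x = k).card : ℕ) : ℚ_[p]) := by
      push_cast
      rw [Nat.cast_zero, sub_zero] at hk
      rw [← hk]
      ring
    exact_mod_cast this
  have h4 : 0 < (J.filter fun x => f x = k).card := by omega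
  obtain ⟨x, hx⟩ := Finset.card_pos.mp h4
  rw [Finset.mem_filter] at hx
  obtain ⟨hxJ, hxk⟩ := hx
  apply hki
  have hcast : (f x : ZMod (p ^ n)) = (i : ZMod (p ^ n)) := by
    rw [hxk]
    exact (ZMod.natCast_eq_natCast_iff _ _ _).mpr hkmod
  have hdv : p ^ n ∣ p ^ (n + 1) := pow_dvd_pow p (Nat.le_succ n)
  have hv : ∀ z : ZMod (p ^ (n + 1)), ((z.val : ℕ) : ZMod (p ^ n)) =
      ZMod.castHom hdv (ZMod (p ^ n)) z := by
    intro z
    rw [ZMod.castHom_apply, ZMod.cast_eq_val]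
  have hcast2 : ZMod.castHom hdv (ZMod (p ^ n)) (u : ZMod (p ^ (n + 1))) *
      PadicInt.toZModPow n (a x) =
      ZMod.castHom hdv (ZMod (p ^ n)) (u : ZMod (p ^ (n + 1))) *
      PadicInt.toZModPow n (a x0) := by
    have e1 : ∀ z : ℤ_[p], PadicInt.toZModPow n z =
        ZMod.castHom hdv (ZMod (p ^ n)) (PadicInt.toZModPow (n + 1) z) := by
      intro z
      rw [ZMod.castHom_apply, PadicInt.cast_toZModPow _ _ (Nat.le_succ n)]
    rw [e1, e1, ← map_mul, ← map_mul, ← hv, ← hv]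
    exact hcast
  have hunit : IsUnit (ZMod.castHom hdv (ZMod (p ^ n)) (u : ZMod (p ^ (n + 1)))) :=
    u.isUnit.map _
  have h5 := hsep x hxJ (hunit.mul_left_cancel hcast2)
  rw [← hxk, hi]
  simp only [hf, h5]

theorem fiber_card (z : ℤ_[p]) (hz : z ≠ 0) (n : ℕ) (hn : z.valuation ≤ n) (c : ZMod (p ^ n)) :
    (Finset.univ.filter fun u : (ZMod (p ^ n))ˣ =>
      (u : ZMod (p ^ n)) * PadicInt.toZModPow n z = c).card ≤ p ^ z.valuation := by
  classical
  have hNZ : NeZero (p ^ n) := ⟨(pow_pos hp.out.pos _).ne'⟩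
  set v := z.valuation with hv
  have hpn : p ^ n = p ^ (n - v) * p ^ v := by rw [← pow_add]; congr 1; omega
  have hpv : 0 < p ^ (n - v) := pow_pos hp.out.pos _
  rw [← Finset.card_range (p ^ v)]
  apply Finset.card_le_card_of_injOn
    (fun u : (ZMod (p ^ n))ˣ => (u : ZMod (p ^ n)).val / p ^ (n - v))
  · intro u _
    simp only [Finset.coe_range, Set.mem_Iio]
    rw [Nat.div_lt_iff_lt_mul hpv, mul_comm, ← hpn]
    exact ZMod.val_lt _
  · intro u hu u' hu' hq
    simp only [Finset.coe_filter, Finset.mem_univ, true_and, Set.mem_ofPred_eq] at hu hu'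
    have h1 : ((u : ZMod (p ^ n)) - u') * PadicInt.toZModPow n z = 0 := by
      rw [sub_mul, hu, hu', sub_self]
    have hspec := PadicInt.unitCoeff_spec hz
    rw [hspec, map_mul, map_pow, map_natCast] at h1
    have hunit : IsUnit (PadicInt.toZModPow n ((PadicInt.unitCoeff hz : ℤ_[p]ˣ) : ℤ_[p])) :=
      (PadicInt.unitCoeff hz).isUnit.map _
    have h2 : ((u : ZMod (p ^ n)) - u') * (p : ZMod (p ^ n)) ^ v = 0 := by
      have h3 : PadicInt.toZModPow n ((PadicInt.unitCoeff hz : ℤ_[p]ˣ) : ℤ_[p]) *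
          (((u : ZMod (p ^ n)) - u') * (p : ZMod (p ^ n)) ^ v) = 0 := by
        rw [← h1]; ring
      exact (hunit.mul_right_eq_zero).mp h3
    have h4 : (u : ZMod (p ^ n)).val ≡ (u' : ZMod (p ^ n)).val [MOD p ^ (n - v)] := by
      have h5 : ((((u : ZMod (p ^ n)).val : ℤ) - (u' : ZMod (p ^ n)).val) * (p : ℤ) ^ v : ℤ) =
          ((((u : ZMod (p ^ n)).val : ℤ) - (u' : ZMod (p ^ n)).val) * (p : ℤ) ^ v : ℤ) := rfl
      have h6 : (((((u : ZMod (p ^ n)).val : ℤ) - (u' : ZMod (p ^ n)).val) * (p : ℤ) ^ v : ℤ) :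
          ZMod (p ^ n)) = 0 := by
        push_cast
        rw [ZMod.natCast_val, ZMod.natCast_val, ZMod.cast_id, ZMod.cast_id]
        exact h2
      rw [ZMod.intCast_zmod_eq_zero_iff_dvd] at h6
      have h7 : ((p ^ n : ℕ) : ℤ) = (p : ℤ) ^ (n - v) * (p : ℤ) ^ v := by
        exact_mod_cast hpn
      rw [h7] at h6
      have h8 : (p : ℤ) ^ v ≠ 0 := by
        have := hp.out.ne_zero
        positivity
      have h9 := (mul_dvd_mul_iff_right h8).mp h6
      rw [Nat.modEq_iff_dvd]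
      have h10 : (((p ^ (n - v) : ℕ)) : ℤ) ∣ ((u' : ZMod (p ^ n)).val : ℤ) - (u : ZMod (p ^ n)).val := by
        push_cast
        rw [← dvd_neg, neg_sub]
        exact h9
      exact h10
    have h11 : (u : ZMod (p ^ n)).val = (u' : ZMod (p ^ n)).val := by
      rw [← Nat.div_add_mod (u : ZMod (p ^ n)).val (p ^ (n - v)),
        ← Nat.div_add_mod (u' : ZMod (p ^ n)).val (p ^ (n - v)), h4]
      simp only at hq
      rw [hq]
    exact Units.ext (ZMod.val_injective _ h11)

/-- The main lower bound for the degree. -/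
theorem degree_bound (x0 : ι) (hx0 : x0 ∈ J) (ha : a x0 ≠ 0) :
    ∃ c : ℕ, 0 < c ∧ ∀ (n : ℕ) (ζ : Ω), IsPrimitiveRoot ζ (p ^ n) →
      ∀ F : IntermediateField ℚ_[p] Ω,
        ∑ x ∈ J, ζ ^ (PadicInt.toZModPow n (a x)).val ∈ F →
        ((p ^ n : ℕ) : Cardinal) ≤ (c : Cardinal) * Module.rank ℚ_[p] F := by
  classical
  obtain ⟨n0, hn0⟩ := exists_sep J a x0
  set v := (a x0).valuation with hv
  refine ⟨2 * (J.card * p ^ v) + p ^ (n0 + v + 1), by
    have := pow_pos hp.out.pos (n0 + v + 1); omega, fun n ζ hζ F hF => ?_⟩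
  have hrank1 : (1 : Cardinal) ≤ Module.rank ℚ_[p] F := by
    rw [Cardinal.one_le_iff_ne_zero]
    exact rank_pos.ne'
  by_cases hn : n ≤ n0 + v + 1
  · calc ((p ^ n : ℕ) : Cardinal) ≤ ((p ^ (n0 + v + 1) : ℕ) : Cardinal) := by
          exact_mod_cast Nat.pow_le_pow_right hp.out.pos hn
      _ ≤ ((2 * (J.card * p ^ v) + p ^ (n0 + v + 1) : ℕ) : Cardinal) := by
          exact_mod_cast Nat.le_add_left _ _
      _ ≤ _ := le_mul_of_one_le_right zero_le hrank1
  · obtain ⟨m, rfl⟩ : ∃ m, n = m + 1 := ⟨n - 1, by omega⟩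
    have hNZ : NeZero (p ^ (m + 1)) := ⟨(pow_pos hp.out.pos _).ne'⟩
    set T : Ω := Tsum J a (m + 1) ζ 1 with hT
    have hTF : T ∈ F := by
      have : T = ∑ x ∈ J, ζ ^ (PadicInt.toZModPow (m + 1) (a x)).val := by simp [hT, Tsum]
      rw [this]; exact hF
    have hint : IsIntegral ℚ_[p] T := by
      have hζi : IsIntegral ℚ_[p] ζ := by
        refine ⟨X ^ (p ^ (m + 1)) - 1, monic_X_pow_sub_C _ (pow_pos hp.out.pos _).ne', ?_⟩
        simp [hζ.pow_eq_one]
      exact IsIntegral.sum _ fun x _ => hζi.pow _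
    set g := minpoly ℚ_[p] T with hg
    have hg0 : g ≠ 0 := minpoly.ne_zero hint
    -- image of the units
    set φ : (ZMod (p ^ (m + 1)))ˣ → Ω := fun u => Tsum J a (m + 1) ζ u with hφ
    have himg : (Finset.univ.image φ).card ≤ g.natDegree := by
      have h1 : Finset.univ.image φ ⊆ (g.map (algebraMap ℚ_[p] Ω)).roots.toFinset := by
        intro t ht
        rw [Finset.mem_image] at ht
        obtain ⟨u, _, rfl⟩ := ht
        rw [Multiset.mem_toFinset, mem_roots (Polynomial.map_ne_zero hg0), IsRoot, eval_map,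
          ← aeval_def]
        exact Tsum_root J a m ζ hζ u
      calc (Finset.univ.image φ).card ≤ (g.map (algebraMap ℚ_[p] Ω)).roots.toFinset.card :=
            Finset.card_le_card h1
        _ ≤ (g.map (algebraMap ℚ_[p] Ω)).roots.card := Multiset.toFinset_card_le _
        _ ≤ (g.map (algebraMap ℚ_[p] Ω)).natDegree := card_roots' _
        _ = g.natDegree := natDegree_map _
    have hfib : ∀ t ∈ Finset.univ.image φ,
        (Finset.univ.filter fun u => φ u = t).card ≤ J.card * p ^ v := by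
      intro t ht
      rw [Finset.mem_image] at ht
      obtain ⟨u', _, rfl⟩ := ht
      have hsub : (Finset.univ.filter fun u => φ u = φ u') ⊆
          J.biUnion fun y => Finset.univ.filter fun u : (ZMod (p ^ (m + 1)))ˣ =>
            (u : ZMod (p ^ (m + 1))) * PadicInt.toZModPow (m + 1) (a x0) =
              (u' : ZMod (p ^ (m + 1))) * PadicInt.toZModPow (m + 1) (a y) := by
        intro u hu
        rw [Finset.mem_filter] at hu
        obtain ⟨y, hy, hyu⟩ := Tsum_eq J a x0 hx0 m (hn0 m (by omega)) ζ hζ u u' hu.2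
        rw [Finset.mem_biUnion]
        exact ⟨y, hy, Finset.mem_filter.mpr ⟨Finset.mem_univ _, hyu⟩⟩
      refine (Finset.card_le_card hsub).trans (Finset.card_biUnion_le_card_mul _ _ _ fun y _ => ?_)
      exact fiber_card (a x0) ha (m + 1) (by omega) _
    have hcard : Fintype.card (ZMod (p ^ (m + 1)))ˣ ≤ J.card * p ^ v * g.natDegree := by
      rw [← Finset.card_univ]
      exact (Finset.card_le_mul_card_image _ _ hfib).trans (Nat.mul_le_mul_left _ himg)
    rw [ZMod.card_units_eq_totient, Nat.totient_prime_pow_succ hp.out] at hcard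
    have h2 : p ^ (m + 1) ≤ 2 * (p ^ m * (p - 1)) := by
      have h3 : p ≤ 2 * (p - 1) := by have := hp.out.two_le; omega
      calc p ^ (m + 1) = p ^ m * p := pow_succ _ _
        _ ≤ p ^ m * (2 * (p - 1)) := Nat.mul_le_mul_left _ h3
        _ = 2 * (p ^ m * (p - 1)) := by ring
    have h3 : p ^ (m + 1) ≤ (2 * (J.card * p ^ v) + p ^ (n0 + v + 1)) * g.natDegree := by
      calc p ^ (m + 1) ≤ 2 * (p ^ m * (p - 1)) := h2
        _ ≤ 2 * (J.card * p ^ v * g.natDegree) := Nat.mul_le_mul_left _ hcard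
        _ = (2 * (J.card * p ^ v)) * g.natDegree := by ring
        _ ≤ _ := Nat.mul_le_mul_right _ (Nat.le_add_right _ _)
    have h4 : (g.natDegree : Cardinal) ≤ Module.rank ℚ_[p] F := by
      have h5 : IntermediateField.adjoin ℚ_[p] {T} ≤ F := by
        rw [IntermediateField.adjoin_simple_le_iff]; exact hTF
      have h6 : Module.finrank ℚ_[p] (IntermediateField.adjoin ℚ_[p] {T}) = g.natDegree :=
        IntermediateField.adjoin.finrank hint
      have h7 : FiniteDimensional ℚ_[p] (IntermediateField.adjoin ℚ_[p] {T}) :=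
        IntermediateField.adjoin.finiteDimensional hint
      rw [← h6, Module.finrank_eq_rank]
      exact LinearMap.rank_le_of_injective (IntermediateField.inclusion h5).toLinearMap
        (IntermediateField.inclusion h5).injective
    calc ((p ^ (m + 1) : ℕ) : Cardinal) ≤
          (((2 * (J.card * p ^ v) + p ^ (n0 + v + 1)) * g.natDegree : ℕ) : Cardinal) := by
            exact_mod_cast h3
      _ = ((2 * (J.card * p ^ v) + p ^ (n0 + v + 1) : ℕ) : Cardinal) * (g.natDegree : Cardinal) := by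
            push_cast; rfl
      _ ≤ _ := by gcongr

end

end Pool.Agent.H639R3
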