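import Mathlib

set_option autoImplicit false

/-!
Closed points of a curve over a finite field as valuation rings of the function field: finiteness
of the residue fields, finiteness of the number of points of bounded degree, infinitude of the set of
closed points.
-/

namespace Pool.Agent.H639R3

open IsDedekindDomain

universe u v w

section center

variable {k : Type u} {F : Type v} {A : Type w} [Field k] [Field F] [CommRing A] [Algebra A F]

/-- the center on `A` of a valuation ring containing the image of `A` -/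
noncomputable def cent (O : ValuationSubring F) (h : ∀ a : A, algebraMap A F a ∈ O) : Ideal A :=
  (IsLocalRing.maximalIdeal O).comap ((algebraMap A F).codRestrict O.toSubring h)

theorem mem_cent (O : ValuationSubring F) (h : ∀ a : A, algebraMap A F a ∈ O) (a : A) :
    a ∈ cent O h ↔ O.valuation (algebraMap A F a) < 1 := by
  unfold cent
  rw [Ideal.mem_comap]
  exact O.valuation_lt_one_iff _

instance cent_isPrime (O : ValuationSubring F) (h : ∀ a : A, algebraMap A F a ∈ O) :
    (cent O h).IsPrime := by
  unfold cent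
  exact Ideal.comap_isPrime _ _

theorem val_eq_one (O : ValuationSubring F) (h : ∀ a : A, algebraMap A F a ∈ O) (a : A)
    (ha : a ∉ cent O h) : O.valuation (algebraMap A F a) = 1 := by
  rw [mem_cent, not_lt] at ha
  exact le_antisymm ((O.valuation_le_one_iff _).mpr (h a)) ha

variable [IsDomain A] [IsFractionRing A F]

theorem cent_ne_bot (O : ValuationSubring F) (h : ∀ a : A, algebraMap A F a ∈ O) (hO : O ≠ ⊤) :
    cent O h ≠ ⊥ := by
  intro hbot
  apply hO
  rw [eq_top_iff]
  intro z _
  obtain ⟨a, b, hb, rfl⟩ := IsFractionRing.div_surjective (A := A) z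
  have hb0 : b ≠ 0 := nonZeroDivisors.ne_zero hb
  have h1 : O.valuation (algebraMap A F b) = 1 := val_eq_one O h b (by rw [hbot]; simpa using hb0)
  rw [← O.valuation_le_one_iff, map_div₀, h1, div_one]
  exact (O.valuation_le_one_iff _).mpr (h a)

omit [IsDomain A]
variable [IsDedekindDomain A]

theorem dich (P : Ideal A) [P.IsPrime] (hP : P ≠ ⊥) (z : F) :
    (∃ a b : A, b ∉ P ∧ z * algebraMap A F b = algebraMap A F a) ∨
      (∃ a b : A, b ∉ P ∧ a ∈ P ∧ z⁻¹ * algebraMap A F b = algebraMap A F a) := by
  obtain ⟨x, y, hy, rfl⟩ := IsFractionRing.div_surjective (A := A) z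
  have hy0 : y ≠ 0 := nonZeroDivisors.ne_zero hy
  have hinj : Function.Injective (algebraMap A F) := IsFractionRing.injective A F
  have hyF : algebraMap A F y ≠ 0 := by
    intro h
    exact hy0 (hinj (by rw [h, map_zero]))
  have hdvr : IsDiscreteValuationRing (Localization.AtPrime P) :=
    IsLocalization.AtPrime.isDiscreteValuationRing_of_dedekind_domain A hP _
  have key : ∀ u w : A, algebraMap A (Localization.AtPrime P) u ∣
      algebraMap A (Localization.AtPrime P) w → ∃ a b : A, b ∉ P ∧ w * b = u * a := by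
    rintro u w ⟨c, hc⟩
    obtain ⟨a, b, hab⟩ := IsLocalization.exists_mk'_eq P.primeCompl c
    refine ⟨a, b, b.2, ?_⟩
    have h1 : algebraMap A (Localization.AtPrime P) (w * b) =
        algebraMap A (Localization.AtPrime P) (u * a) := by
      rw [map_mul, map_mul, hc, ← hab, mul_assoc, IsLocalization.mk'_spec]
    exact IsLocalization.injective _ P.primeCompl_le_nonZeroDivisors h1
  rcases ValuationRing.dvd_total (algebraMap A (Localization.AtPrime P) y)
    (algebraMap A (Localization.AtPrime P) x) with h | h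
  · obtain ⟨a, b, hb, hab⟩ := key y x h
    left
    refine ⟨a, b, hb, ?_⟩
    rw [div_mul_eq_mul_div, div_eq_iff hyF, ← map_mul, ← map_mul, hab, mul_comm]
  · obtain ⟨a, b, hb, hab⟩ := key x y h
    by_cases hx : x = 0
    · left
      refine ⟨0, 1, fun h1 => ‹P.IsPrime›.ne_top ((Ideal.eq_top_iff_one P).mpr h1), ?_⟩
      subst hx
      simp
    have hxF : algebraMap A F x ≠ 0 := by
      intro h
      exact hx (hinj (by rw [h, map_zero]))
    by_cases haP : a ∈ P
    · right
      refine ⟨a, b, hb, haP, ?_⟩
      rw [inv_div, div_mul_eq_mul_div, div_eq_iff hxF, ← map_mul, ← map_mul, hab, mul_comm]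
    · left
      refine ⟨b, a, haP, ?_⟩
      rw [div_mul_eq_mul_div, div_eq_iff hyF, ← map_mul, ← map_mul, ← hab, mul_comm]

theorem mem_iff_of_cent (O : ValuationSubring F) (h : ∀ a : A, algebraMap A F a ∈ O) (hO : O ≠ ⊤)
    (z : F) : z ∈ O ↔ ∃ a b : A, b ∉ cent O h ∧ z * algebraMap A F b = algebraMap A F a := by
  constructor
  · intro hz
    by_cases hz0 : z = 0
    · refine ⟨0, 1, fun h1 => (cent_isPrime O h).ne_top ((Ideal.eq_top_iff_one _).mpr h1), ?_⟩
      subst hz0
      simp
    rcases dich (cent O h) (cent_ne_bot O h hO) z with h1 | ⟨a, b, hb, ha, hab⟩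
    · exact h1
    · exfalso
      have h2 := congrArg O.valuation hab
      rw [map_mul, val_eq_one O h b hb, mul_one, map_inv₀] at h2
      have h3 := (mem_cent O h a).mp ha
      rw [← h2] at h3
      have h4 : O.valuation z ≤ 1 := (O.valuation_le_one_iff _).mpr hz
      have hz1 : O.valuation z ≠ 0 := (map_ne_zero O.valuation).mpr hz0
      exact absurd h3 (not_lt.mpr ((one_le_inv₀ (zero_lt_iff.mpr hz1)).mpr h4))
  · rintro ⟨a, b, hb, hab⟩
    have h2 := congrArg O.valuation hab
    rw [map_mul, val_eq_one O h b hb, mul_one] at h2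
    rw [← O.valuation_le_one_iff, h2]
    exact (O.valuation_le_one_iff _).mpr (h a)

theorem eq_of_cent_eq (O O' : ValuationSubring F) (h : ∀ a : A, algebraMap A F a ∈ O)
    (h' : ∀ a : A, algebraMap A F a ∈ O') (hO : O ≠ ⊤) (hO' : O' ≠ ⊤)
    (he : cent O h = cent O' h') : O = O' := by
  ext z
  rw [mem_iff_of_cent O h hO, mem_iff_of_cent O' h' hO', he]

theorem residue_surjective (O : ValuationSubring F) (h : ∀ a : A, algebraMap A F a ∈ O)
    (hO : O ≠ ⊤) : Function.Surjective
      ((IsLocalRing.residue O).comp ((algebraMap A F).codRestrict O.toSubring h)) := by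
  intro r
  obtain ⟨z, rfl⟩ := IsLocalRing.residue_surjective r
  obtain ⟨a, b, hb, hab⟩ := (mem_iff_of_cent O h hO z).mp z.2
  have hmax : (cent O h).IsMaximal :=
    (cent_isPrime O h).isMaximal (cent_ne_bot O h hO)
  obtain ⟨b', hb'⟩ := hmax.exists_inv hb
  obtain ⟨i, hi, hsum⟩ := hb'
  -- b' * b + i = 1
  refine ⟨a * b', ?_⟩
  rw [RingHom.comp_apply, ← sub_eq_zero, ← map_sub, IsLocalRing.residue_eq_zero_iff,
    O.valuation_lt_one_iff]
  have h1 : (((((algebraMap A F).codRestrict O.toSubring h) (a * b') - z : O)) : F) =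
      -((z : F) * algebraMap A F i) := by
    have h2 : (algebraMap A F (b' * b + i)) = 1 := by rw [hsum, map_one]
    have h3 : ((((algebraMap A F).codRestrict O.toSubring h) (a * b') : O) : F) =
      algebraMap A F (a * b') := rfl
    push_cast
    rw [h3, map_mul, ← hab]
    rw [map_add, map_mul] at h2
    linear_combination (z : F) * h2
  rw [h1, Valuation.map_neg, map_mul]
  calc O.valuation (z : F) * O.valuation (algebraMap A F i) ≤ 1 * O.valuation (algebraMap A F i) := by
        gcongr
        exact (O.valuation_le_one_iff _).mpr z.2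
    _ < 1 := by rw [one_mul]; exact (mem_cent O h i).mp hi

/-- the valuation ring of a maximal ideal -/
theorem exists_of_height_one (v : HeightOneSpectrum A) :
    ∃ (O : ValuationSubring F) (h : ∀ a : A, algebraMap A F a ∈ O), O ≠ ⊤ ∧
      cent O h = v.asIdeal := by
  have h : ∀ a : A, algebraMap A F a ∈ (v.valuation F).valuationSubring := fun a =>
    v.valuation_le_one a
  refine ⟨(v.valuation F).valuationSubring, h, ?_, ?_⟩
  · intro htop
    obtain ⟨a, ha, ha0⟩ := Submodule.exists_mem_ne_zero_of_ne_bot v.ne_bot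
    have h1 : (algebraMap A F a)⁻¹ ∈ (v.valuation F).valuationSubring := by rw [htop]; trivial
    have h2 : v.valuation F (algebraMap A F a)⁻¹ ≤ 1 := h1
    have h3 : v.valuation F (algebraMap A F a) < 1 := (v.valuation_lt_one_iff_mem a).mpr ha
    rw [map_inv₀] at h2
    have h4 : v.valuation F (algebraMap A F a) ≠ 0 := by
      rw [Ne, map_eq_zero]
      intro h5
      exact ha0 (IsFractionRing.injective A F (by rw [h5, map_zero]))
    have h5 := (inv_le_one₀ (zero_lt_iff.mpr h4)).mp h2
    exact absurd h3 (not_lt.mpr h5)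
  · ext a
    rw [mem_cent, ← v.valuation_lt_one_iff_mem (K := F) a]
    exact (Valuation.isEquiv_iff_val_lt_one.mp
      (Valuation.isEquiv_valuation_valuationSubring (v.valuation F))).symm

/-- Infinitely many maximal ideals. -/
theorem infinite_height_one (k : Type u) [Field k] [Algebra k A] [Algebra.FiniteType k A]
    (hA : ¬ IsField A) : Infinite (HeightOneSpectrum A) := by
  classical
  have hJ : IsJacobsonRing A := isJacobsonRing_of_finiteType (A := k)
  by_contra hfin
  rw [not_infinite_iff_finite] at hfin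
  have := Fintype.ofFinite (HeightOneSpectrum A)
  set I : Ideal A := ∏ v : HeightOneSpectrum A, v.asIdeal with hI
  have hI0 : I ≠ ⊥ := by
    rw [hI, Ne, ← Ideal.zero_eq_bot, Finset.prod_eq_zero_iff]
    rintro ⟨v, -, hv⟩
    exact v.ne_bot hv
  have hjac : (⊥ : Ideal A).jacobson = ⊥ :=
    hJ.out (Ideal.IsPrime.isRadical Ideal.isPrime_bot)
  apply hI0
  rw [eq_bot_iff, ← hjac, Ideal.jacobson]
  refine le_sInf ?_
  rintro M ⟨-, hM⟩
  have hM0 : M ≠ ⊥ := Ring.ne_bot_of_isMaximal_of_not_isField hM hA
  exact (Ideal.prod_le_inf).trans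
    (Finset.inf_le (f := fun v : HeightOneSpectrum A => v.asIdeal)
      (Finset.mem_univ ⟨M, hM.isPrime, hM0⟩))

end center

end Pool.Agent.H639R3
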